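import Pool.Agent.H28.GS.Targets

/-!
Board gs2_modules, row B2S: the uniformity norm of order two and the Fourier coefficients.
-/

set_option autoImplicit false

open Finset Filter Topology

namespace Pool.Agent.H40.GS

open Pool.Agent.H28.GS
open Pool.Agent.H31.DP
open Pool.Agent.H31.GUF
open Pool.Agent.H28.GU (Gw hat T_HF)
open Pool.Agent.H28.GUG (cut G_BR)

theorem sum_valZ {E : Type*} [AddCommMonoid E] (N q : ℕ) [NeZero q] (hq : N < q)
    (G : ℤ → E) :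
    ∑ x : ZMod q, (if 1 ≤ x.val ∧ x.val ≤ N then G (x.val : ℤ) else 0) =
      ∑ n ∈ Finset.Icc (1 : ℤ) N, G n := by
  rw [← Finset.sum_filter]
  refine Finset.sum_bij' (fun x _ => (x.val : ℤ)) (fun n _ => (n : ZMod q)) ?_ ?_ ?_ ?_ ?_
  · intro x hx
    rw [Finset.mem_Icc]
    have := (Finset.mem_filter.mp hx).2
    omega
  · intro n hn
    rw [Finset.mem_Icc] at hn
    rw [Finset.mem_filter]
    refine ⟨Finset.mem_univ _, ?_⟩
    obtain ⟨k, rfl⟩ := Int.eq_ofNat_of_zero_le (by omega : 0 ≤ n)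
    rw [Int.cast_natCast, ZMod.val_natCast_of_lt (by omega)]
    omega
  · intro x hx
    simp
  · intro n hn
    rw [Finset.mem_Icc] at hn
    obtain ⟨k, rfl⟩ := Int.eq_ofNat_of_zero_le (by omega : 0 ≤ n)
    rw [Int.cast_natCast, ZMod.val_natCast_of_lt (by omega)]
  · intro x hx
    rfl

theorem hat_cut (g : ℤ → ℝ) (N q : ℕ) [NeZero q] (hq : N < q) (ξ : ZMod q) :
    hat (cut q N g) ξ =
      ∑ n ∈ Finset.Icc (1 : ℤ) N, ((g n : ℝ) : ℂ) * ee (n * ((ξ.val : ℝ) / q)) := by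
  unfold hat
  rw [← sum_valZ N q hq]
  refine Finset.sum_congr rfl fun x _ => ?_
  unfold cut
  by_cases hx : 1 ≤ x.val ∧ x.val ≤ N
  · rw [if_pos hx, if_pos hx]
    congr 1
    have h2 : x * ξ = ((((x.val : ℤ) * (ξ.val : ℤ) : ℤ)) : ZMod q) := by
      push_cast
      simp
    rw [h2, ZMod.stdAddChar_coe]
    unfold ee
    congr 1
    push_cast
    ring
  · rw [if_neg hx, if_neg hx]
    simp

theorem pf_B2S (hHF : T_HF) (hBR : G_BR) : T_B2S := by
  intro g N E hg hE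
  have hq : N < 2 * N + 1 := by omega
  rw [← hBR 2 N (2 * N + 1) g (by omega)]
  have h4 := hHF.2 (2 * N + 1) (cut (2 * N + 1) N g)
  have h2 := hHF.1 (2 * N + 1) (cut (2 * N + 1) N g)
  have h5 : ∑ n : ZMod (2 * N + 1), (cut (2 * N + 1) N g n) ^ 2 ≤ N := by
    have h6 : ∀ n : ZMod (2 * N + 1), (cut (2 * N + 1) N g n) ^ 2 ≤
        (if 1 ≤ n.val ∧ n.val ≤ N then (1 : ℝ) else 0) := by
      intro n
      unfold cut
      by_cases hx : 1 ≤ n.val ∧ n.val ≤ N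
      · rw [if_pos hx, if_pos hx]
        rw [sq_le_one_iff_abs_le_one]
        exact hg _
      · rw [if_neg hx, if_neg hx]
        simp
    refine le_trans (Finset.sum_le_sum fun n _ => h6 n) ?_
    rw [sum_valZ N (2 * N + 1) hq (fun _ => (1 : ℝ))]
    simp
  have h7 : ∑ ξ : ZMod (2 * N + 1), ‖hat (cut (2 * N + 1) N g) ξ‖ ^ 4 ≤
      E ^ 2 * ∑ ξ : ZMod (2 * N + 1), ‖hat (cut (2 * N + 1) N g) ξ‖ ^ 2 := by
    rw [Finset.mul_sum]
    refine Finset.sum_le_sum fun ξ _ => ?_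
    have h8 : ‖hat (cut (2 * N + 1) N g) ξ‖ ≤ E := by
      rw [hat_cut g N (2 * N + 1) hq]
      exact hE _
    have h9 : ‖hat (cut (2 * N + 1) N g) ξ‖ ^ 4 =
        ‖hat (cut (2 * N + 1) N g) ξ‖ ^ 2 * ‖hat (cut (2 * N + 1) N g) ξ‖ ^ 2 := by ring
    rw [h9]
    exact mul_le_mul_of_nonneg_right (pow_le_pow_left₀ (norm_nonneg _) h8 2) (by positivity)
  have hqR : (0 : ℝ) < ((2 * N + 1 : ℕ) : ℝ) := by positivity
  rw [h4, h2] at h7
  have h10 : ((2 * N + 1 : ℕ) : ℝ) * Gw 2 (cut (2 * N + 1) N g) ≤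
      ((2 * N + 1 : ℕ) : ℝ) * (N * E ^ 2) := by
    refine le_trans h7 ?_
    have := mul_le_mul_of_nonneg_left h5 (mul_nonneg (sq_nonneg E) hqR.le)
    nlinarith [this]
  exact le_of_mul_le_mul_left h10 hqR

end Pool.Agent.H40.GS
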