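import Pool.Agent.H28.GS.Targets
import Pool.Agent.H74.GUF.FN

/-!
Board gs2_modules, row FNS: the structure theorem.
-/

set_option autoImplicit false

open Finset Filter Topology

namespace Pool.Agent.H40.GS

open Pool.Agent.H28.GS
open Pool.Agent.H31.DP
open Pool.Agent.H31.GUF
open Pool.Agent.H28.GUG
open Pool.Agent.H24.T2 (box)
open Pool.Agent.H74.GUF (abs_fz_le fz_shift sum_three sum_small)

/-- A shift of the range of summation. -/
theorem shift_diff {E : Type*} [NormedAddCommGroup E] (G : ℤ → E) (D : ℝ) (hD0 : 0 ≤ D)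
    (N B : ℕ) (hD : ∀ m : ℤ, 1 - (B : ℤ) ≤ m → m ≤ N + B → ‖G m‖ ≤ D) (s : ℤ)
    (hs : s.natAbs ≤ B) :
    ‖∑ n ∈ Finset.Icc (1 : ℤ) N, G (n + s) - ∑ n ∈ Finset.Icc (1 : ℤ) N, G n‖ ≤ 2 * B * D := by
  classical
  have h1 : ∑ n ∈ Finset.Icc (1 : ℤ) N, G (n + s) =
      ∑ m ∈ Finset.Icc (1 + s) (N + s), G m := by
    rw [← Finset.map_add_right_Icc, Finset.sum_map]
    rfl
  have h2 := Finset.sum_sdiff_sub_sum_sdiff (s₁ := Finset.Icc (1 + s) (N + s))
    (s₂ := Finset.Icc (1 : ℤ) N) (f := G)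
  have hb : ∀ S : Finset ℤ, S.card ≤ B → (∀ i ∈ S, 1 - (B : ℤ) ≤ i ∧ i ≤ N + B) →
      ‖∑ i ∈ S, G i‖ ≤ B * D := by
    intro S hS hS2
    calc ‖∑ i ∈ S, G i‖ ≤ ∑ i ∈ S, ‖G i‖ := norm_sum_le _ _
      _ ≤ ∑ i ∈ S, D := Finset.sum_le_sum fun i hi => hD i (hS2 i hi).1 (hS2 i hi).2
      _ = (S.card : ℝ) * D := by simp
      _ ≤ B * D := mul_le_mul_of_nonneg_right (by exact_mod_cast hS) hD0
  have h3 : (Finset.Icc (1 : ℤ) N \ Finset.Icc (1 + s) (N + s)).card ≤ B := by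
    have hsub : Finset.Icc (1 : ℤ) N \ Finset.Icc (1 + s) (N + s) ⊆
        Finset.Icc (1 : ℤ) s ∪ Finset.Icc (N + s + 1) N := by
      intro z hz
      rw [Finset.mem_sdiff, Finset.mem_Icc, Finset.mem_Icc] at hz
      rw [Finset.mem_union, Finset.mem_Icc, Finset.mem_Icc]
      omega
    have := (Finset.card_le_card hsub).trans (Finset.card_union_le _ _)
    rw [Int.card_Icc, Int.card_Icc] at this
    omega
  have h4 : (Finset.Icc (1 + s) (N + s) \ Finset.Icc (1 : ℤ) N).card ≤ B := by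
    have hsub : Finset.Icc (1 + s) (N + s) \ Finset.Icc (1 : ℤ) N ⊆
        Finset.Icc ((N : ℤ) + 1) (N + s) ∪ Finset.Icc (1 + s) 0 := by
      intro z hz
      rw [Finset.mem_sdiff, Finset.mem_Icc, Finset.mem_Icc] at hz
      rw [Finset.mem_union, Finset.mem_Icc, Finset.mem_Icc]
      omega
    have := (Finset.card_le_card hsub).trans (Finset.card_union_le _ _)
    rw [Int.card_Icc, Int.card_Icc] at this
    omega
  have h7 := hb _ h3 (by
    intro i hi
    rw [Finset.mem_sdiff, Finset.mem_Icc] at hi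
    omega)
  have h8 := hb _ h4 (by
    intro i hi
    rw [Finset.mem_sdiff, Finset.mem_Icc] at hi
    omega)
  rw [h1, ← neg_sub, ← h2, norm_neg]
  refine (norm_sub_le _ _).trans ?_
  linarith

/-- Quotients of near numbers are near. -/
theorem ediv_near (N : ℤ) (hN : 0 < N) (C x y : ℤ) (h : x - y ≤ C * N) : x / N - y / N ≤ C + 1 := by
  have h1 : N * (x / N) ≤ x := Int.mul_ediv_self_le hN.ne'
  have h2 : y < N * (y / N) + N := by
    have := Int.lt_mul_ediv_self_add (x := y) hN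
    exact this
  by_contra hcon
  push Not at hcon
  have h3 : C + 2 ≤ x / N - y / N := by omega
  have h4 : N * (C + 2) ≤ N * (x / N - y / N) := mul_le_mul_of_nonneg_left h3 hN.le
  nlinarith

/-- The number of the `n` for which the block changes. -/
theorem block_change (N B L K₀ : ℕ) (hN : 0 < N) (hBN : B ≤ N) (hL : L ≤ K₀) (a₀ s c : ℤ)
    (hs : a₀ * s = B) (hsB : s.natAbs ≤ B) :
    (((Finset.Icc (1 : ℤ) N).filter (fun n => (L : ℤ) * (a₀ * n + c + B) / N ≠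
      (L : ℤ) * (a₀ * n + c) / N)).card : ℝ) ≤ 2 * B * (2 * K₀ * a₀.natAbs + 1) := by
  classical
  set g : ℤ → ℤ := fun n => (L : ℤ) * (a₀ * n + c) / N with hg
  have hNz : (0 : ℤ) < N := by exact_mod_cast hN
  have h0 : ∀ n : ℤ, (L : ℤ) * (a₀ * n + c + B) / N = g (n + s) := by
    intro n
    rw [hg]
    simp only
    congr 1
    rw [← hs]
    ring
  have hmono : ∀ n : ℤ, g n ≤ g (n + s) := by
    intro n
    rw [← h0, hg]
    simp only
    refine Int.ediv_le_ediv hNz ?_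
    refine mul_le_mul_of_nonneg_left ?_ (Int.natCast_nonneg L)
    have : (0 : ℤ) ≤ B := Int.natCast_nonneg B
    linarith
  have hbound : ∀ m : ℤ, 1 - (B : ℤ) ≤ m → m ≤ N + B →
      ‖((g m - g 1 : ℤ) : ℝ)‖ ≤ 2 * K₀ * a₀.natAbs + 1 := by
    intro m h1 h2
    have e1 : (a₀.natAbs : ℤ) = |a₀| := Int.natCast_natAbs a₀
    have e2 : |m - 1| ≤ 2 * N := by
      rw [abs_le]
      have : (B : ℤ) ≤ N := by exact_mod_cast hBN
      constructor <;> omega
    have e3 : |(L : ℤ) * (a₀ * m + c) - (L : ℤ) * (a₀ * 1 + c)| ≤ (2 * K₀ * |a₀|) * N := by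
      have e4 : (L : ℤ) * (a₀ * m + c) - (L : ℤ) * (a₀ * 1 + c) = L * (a₀ * (m - 1)) := by ring
      rw [e4, abs_mul, abs_mul, abs_of_nonneg (Int.natCast_nonneg L)]
      have e5 : (L : ℤ) ≤ K₀ := by exact_mod_cast hL
      calc (L : ℤ) * (|a₀| * |m - 1|) ≤ K₀ * (|a₀| * (2 * N)) := by
            refine mul_le_mul e5 (mul_le_mul_of_nonneg_left e2 (abs_nonneg _)) (by positivity)
              (by positivity)
        _ = (2 * K₀ * |a₀|) * N := by ring
    have e6 := ediv_near N hNz (2 * K₀ * |a₀|) _ _ ((le_abs_self _).trans e3)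
    have e7 := ediv_near N hNz (2 * K₀ * |a₀|) _ _
      ((le_abs_self _).trans ((abs_sub_comm _ _).le.trans e3))
    have e8 : |g m - g 1| ≤ 2 * K₀ * |a₀| + 1 := by
      rw [abs_le]
      constructor
      · have : -(g m - g 1) ≤ 2 * K₀ * |a₀| + 1 := by
          rw [neg_sub]
          exact e7
        linarith
      · exact e6
    rw [Real.norm_eq_abs]
    have e9 : ((|g m - g 1| : ℤ) : ℝ) ≤ ((2 * K₀ * |a₀| + 1 : ℤ) : ℝ) := by exact_mod_cast e8
    rw [Int.cast_abs] at e9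
    refine e9.trans (le_of_eq ?_)
    rw [Nat.cast_natAbs]
    push_cast
    ring
  have h3 := shift_diff (fun n => ((g n - g 1 : ℤ) : ℝ)) (2 * K₀ * a₀.natAbs + 1) (by positivity)
    N B hbound s hsB
  have h4 : (((Finset.Icc (1 : ℤ) N).filter (fun n => (L : ℤ) * (a₀ * n + c + B) / N ≠
      (L : ℤ) * (a₀ * n + c) / N)).card : ℝ) ≤
      ∑ n ∈ Finset.Icc (1 : ℤ) N, ((g (n + s) - g 1 : ℤ) : ℝ) -
        ∑ n ∈ Finset.Icc (1 : ℤ) N, ((g n - g 1 : ℤ) : ℝ) := by
    rw [← Finset.sum_sub_distrib, Finset.card_filter]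
    push_cast
    refine Finset.sum_le_sum fun n _ => ?_
    have h5 := hmono n
    split_ifs with h6
    · rw [h0] at h6
      have h7 : g n + 1 ≤ g (n + s) := by
        have : g n ≠ g (n + s) := fun h => h6 h.symm
        omega
      have h8 : ((g n : ℤ) : ℝ) + 1 ≤ ((g (n + s) : ℤ) : ℝ) := by exact_mod_cast h7
      linarith
    · have h8 : ((g n : ℤ) : ℝ) ≤ ((g (n + s) : ℤ) : ℝ) := by exact_mod_cast h5
      linarith
  exact h4.trans ((le_abs_self _).trans h3)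

theorem emod_sub_emod' (m B q : ℤ) : (m % q - B) % q = (m - B) % q := by
  rw [Int.sub_emod, Int.emod_emod_of_dvd _ (dvd_refl q), ← Int.sub_emod]

theorem str_shift {r R J : ℕ} (P : Prop) (hP : ¬ P) (β : Fin r → ℤ) (δ : Fin r → ℕ)
    (h : Fin r → ℕ) (B : ℕ) (hh : ∀ i, (h i : ℤ) = β i + B) (a₀ : ℤ) (b₀ : Fin R → ℤ)
    (a : Fin J → ℤ) (b : Fin J → Fin R → ℤ) (s : ℤ) (hs : a₀ * s = B) (hsB : s.natAbs ≤ B)
    (η : ℝ) (hη : 0 < η) (N K₀ K : ℕ) (hK : K₀ ≤ K) (hN0 : 0 < N) (hBN : B ≤ N)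
    (hN : 2 * (4 * (B : ℝ) + 4 * B * (2 * K₀ * a₀.natAbs + 1)) ≤ η * N)
    (hStr : Str False (fun i => (h i : ℤ)) δ a₀ b₀ a b (η / 2) K₀ N) :
    Str P β δ a₀ b₀ a b η K N := by
  classical
  obtain ⟨q, L, φ, hq1, hq2, hL1, hL2, hφ, -, hF0⟩ := hStr
  refine ⟨q, L, fun s j => φ ((s - B) % q) j, hq1, hq2.trans hK, hL1, hL2.trans hK,
    fun s j => hφ _ _, fun hp => absurd hp hP, ?_⟩
  intro F hF
  have hN0' : (0 : ℝ) ≤ (N : ℝ) := Nat.cast_nonneg N
  have h1 : η / 2 * (N : ℝ) ^ R ≤ η * (N : ℝ) ^ R := by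
    have : (0 : ℝ) ≤ η * (N : ℝ) ^ R := by positivity
    linarith
  refine le_trans ?_ ((hF0 (fun j m => F j (m + a j * s)) (fun j m => hF j _)).trans h1)
  norm_cast
  refine Finset.card_le_card ?_
  intro t ht
  rw [Finset.mem_filter] at ht ⊢
  refine ⟨ht.1, ?_⟩
  set φ' : ℤ → ℤ → ℝ := fun s j => φ ((s - B) % q) j with hφ'
  set G : ℤ → ℂ := fun n => ((fz β δ (a₀ * n + dot b₀ t) -
    st q L N φ' (a₀ * n + dot b₀ t) : ℝ) : ℂ) * ∏ j, F j (a j * n + dot (b j) t) with hG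
  set G' : ℤ → ℂ := fun n => ((fz (fun i => (h i : ℤ)) δ (a₀ * n + dot b₀ t) -
    st q L N φ (a₀ * n + dot b₀ t) : ℝ) : ℂ) * ∏ j, F j (a j * n + dot (b j) t + a j * s)
    with hG'
  have hprod : ∀ z : Fin J → ℤ, ‖∏ j, F j (z j)‖ ≤ 1 := by
    intro z
    rw [norm_prod]
    exact Finset.prod_le_one (fun j _ => norm_nonneg _) fun j _ => hF j _
  have hGb : ∀ m : ℤ, 1 - (B : ℤ) ≤ m → m ≤ N + B → ‖G m‖ ≤ 2 := by
    intro m _ _
    rw [hG]
    simp only
    rw [norm_mul, Complex.norm_real, Real.norm_eq_abs]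
    have h3 := abs_fz_le β δ (a₀ * m + dot b₀ t)
    have h4 : |st q L N φ' (a₀ * m + dot b₀ t)| ≤ 1 := hφ _ _
    have h5 : |fz β δ (a₀ * m + dot b₀ t) - st q L N φ' (a₀ * m + dot b₀ t)| ≤ 2 := by
      refine (abs_sub _ _).trans ?_
      linarith
    calc |fz β δ (a₀ * m + dot b₀ t) - st q L N φ' (a₀ * m + dot b₀ t)| *
          ‖∏ j, F j (a j * m + dot (b j) t)‖ ≤ 2 * 1 :=
          mul_le_mul h5 (hprod _) (norm_nonneg _) (by norm_num)
      _ = 2 := by norm_num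
  have h2 := shift_diff G 2 (by norm_num) N B hGb s hsB
  have h3 : ‖∑ n ∈ Finset.Icc (1 : ℤ) N, G (n + s) - ∑ n ∈ Finset.Icc (1 : ℤ) N, G' n‖ ≤
      2 * (2 * B * (2 * K₀ * a₀.natAbs + 1)) := by
    rw [← Finset.sum_sub_distrib]
    have h4 : ∀ n ∈ Finset.Icc (1 : ℤ) N, ‖G (n + s) - G' n‖ ≤
        2 * (if (L : ℤ) * (a₀ * n + dot b₀ t + B) / N ≠ (L : ℤ) * (a₀ * n + dot b₀ t) / N
          then 1 else 0) := by
      intro n _
      have e1 : a₀ * (n + s) + dot b₀ t = a₀ * n + dot b₀ t + B := by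
        rw [← hs]
        ring
      have e2 : ∀ j, a j * (n + s) + dot (b j) t = a j * n + dot (b j) t + a j * s := by
        intro j
        ring
      have e3 : st q L N φ' (a₀ * n + dot b₀ t + B) =
          φ ((a₀ * n + dot b₀ t) % q) ((L : ℤ) * (a₀ * n + dot b₀ t + B) / N) := by
        unfold st
        rw [hφ']
        simp only
        rw [emod_sub_emod', add_sub_cancel_right]
      have e4 : G (n + s) - G' n =
          ((φ ((a₀ * n + dot b₀ t) % q) ((L : ℤ) * (a₀ * n + dot b₀ t) / N) -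
            φ ((a₀ * n + dot b₀ t) % q) ((L : ℤ) * (a₀ * n + dot b₀ t + B) / N) : ℝ) : ℂ) *
            ∏ j, F j (a j * n + dot (b j) t + a j * s) := by
        rw [hG, hG']
        simp only
        rw [e1, e3, fz_shift β δ h B hh]
        simp only [e2]
        unfold st
        push_cast
        ring
      rw [e4, norm_mul, Complex.norm_real, Real.norm_eq_abs]
      split_ifs with h6
      · have e5 : |φ ((a₀ * n + dot b₀ t) % q) ((L : ℤ) * (a₀ * n + dot b₀ t) / N) -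
            φ ((a₀ * n + dot b₀ t) % q) ((L : ℤ) * (a₀ * n + dot b₀ t + B) / N)| ≤ 2 := by
          refine (abs_sub _ _).trans ?_
          have := hφ ((a₀ * n + dot b₀ t) % q) ((L : ℤ) * (a₀ * n + dot b₀ t) / N)
          have := hφ ((a₀ * n + dot b₀ t) % q) ((L : ℤ) * (a₀ * n + dot b₀ t + B) / N)
          linarith
        exact mul_le_mul e5 (hprod _) (norm_nonneg _) (by norm_num)
      · push Not at h6
        rw [h6, sub_self, abs_zero, zero_mul, mul_zero]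
    refine (norm_sum_le _ _).trans ((Finset.sum_le_sum h4).trans ?_)
    rw [← Finset.mul_sum]
    refine mul_le_mul_of_nonneg_left ?_ (by norm_num)
    have h5 := block_change N B L K₀ hN0 hBN hL2 a₀ s (dot b₀ t) hs hsB
    rw [Finset.card_filter] at h5
    push_cast at h5
    exact h5
  have h6 : η * N < ‖∑ n ∈ Finset.Icc (1 : ℤ) N, G n‖ := ht.2
  have h7 : ‖∑ n ∈ Finset.Icc (1 : ℤ) N, G n‖ ≤ ‖∑ n ∈ Finset.Icc (1 : ℤ) N, G' n‖ +
      2 * B * 2 + 2 * (2 * B * (2 * K₀ * a₀.natAbs + 1)) := by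
    have e1 : ∑ n ∈ Finset.Icc (1 : ℤ) N, G n = ∑ n ∈ Finset.Icc (1 : ℤ) N, G' n +
        (∑ n ∈ Finset.Icc (1 : ℤ) N, G (n + s) - ∑ n ∈ Finset.Icc (1 : ℤ) N, G' n) -
        (∑ n ∈ Finset.Icc (1 : ℤ) N, G (n + s) - ∑ n ∈ Finset.Icc (1 : ℤ) N, G n) := by ring
    rw [e1]
    refine (norm_sub_le _ _).trans ?_
    refine (add_le_add (norm_add_le _ _) le_rfl).trans ?_
    linarith
  have h8 : η / 2 * N < ‖∑ n ∈ Finset.Icc (1 : ℤ) N, G' n‖ := by
    linarith
  exact h8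

theorem pf_FNS (hF0 : T_F0S) (hFN : G_FN) : T_FNS := by
  classical
  intro r β δ R J a₀ b₀ a b η ρ hδ ha₀ hb hη hρ
  by_cases hP : Pair β δ
  · obtain ⟨K, hK⟩ := hFN r β δ R J a₀ b₀ a b η ρ hδ ha₀ hb hη hρ
    refine ⟨max K 1, by positivity, fun x y hx hxy => ?_⟩
    refine le_trans ?_ (hK x y hx ((Nat.mul_le_mul_right x (le_max_left K 1)).trans hxy))
    refine Finset.sum_le_sum_of_subset_of_nonneg ?_ (fun N _ _ => by positivity)
    intro N hN
    rw [Finset.mem_filter] at hN ⊢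
    refine ⟨hN.1, Or.inl hP, ?_⟩
    by_contra hB
    refine hN.2 ⟨1, 1, fun _ _ => 0, le_refl _, le_max_right _ _, le_refl _, le_max_right _ _,
      fun _ _ => by simp, fun _ _ _ => rfl, ?_⟩
    intro F hF
    by_contra hcon
    push Not at hcon
    refine hB ⟨F, hF, ?_⟩
    refine lt_of_lt_of_le hcon (le_of_eq ?_)
    congr 2
    refine Finset.filter_congr fun t _ => ?_
    unfold st
    simp only [sub_zero]
  · obtain ⟨b', hb'⟩ : ∃ b' : ℕ, b' = ∑ i, (β i).natAbs := ⟨_, rfl⟩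
    have ha1 : 1 ≤ a₀.natAbs := Int.natAbs_pos.2 ha₀
    obtain ⟨B, hB⟩ : ∃ B : ℕ, B = a₀.natAbs * b' := ⟨_, rfl⟩
    obtain ⟨s, hs⟩ : ∃ s : ℤ, a₀ * s = B := by
      refine ⟨a₀.sign * b', ?_⟩
      rw [← mul_assoc, Int.mul_sign_self, hB]
      push_cast
      rfl
    have hsB : s.natAbs ≤ B := by
      have h1 : a₀.natAbs * s.natAbs = B := by
        rw [← Int.natAbs_mul, hs, Int.natAbs_natCast]
      rw [← h1]
      exact Nat.le_mul_of_pos_left _ ha1
    have hβB : ∀ i, 0 ≤ β i + B := by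
      intro i
      have h1 : (β i).natAbs ≤ b' := by
        rw [hb']
        exact Finset.single_le_sum (f := fun i => (β i).natAbs) (fun _ _ => Nat.zero_le _)
          (Finset.mem_univ i)
      have h2 : b' ≤ B := by
        rw [hB]
        exact Nat.le_mul_of_pos_left _ ha1
      omega
    set h : Fin r → ℕ := fun i => (β i + B).toNat with hh0
    have hh : ∀ i, (h i : ℤ) = β i + B := fun i => Int.toNat_of_nonneg (hβB i)
    obtain ⟨K₀, hK₀, h0⟩ := hF0 r h δ R J a₀ b₀ a b (η / 2) (ρ / 2) hδ ha₀ hb (by positivity)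
      (by positivity)
    set C : ℝ := 2 * (4 * (B : ℝ) + 4 * B * (2 * K₀ * a₀.natAbs + 1)) with hC
    set N₀ : ℕ := ⌈C / η⌉₊ + B + 1 with hN₀
    set K : ℕ := max K₀ ⌈Real.exp (2 * N₀ / ρ)⌉₊ with hK
    have hK1 : K₀ ≤ K := le_max_left _ _
    have hK3 : Real.exp (2 * N₀ / ρ) ≤ K := by
      have h3 : ⌈Real.exp (2 * N₀ / ρ)⌉₊ ≤ K := le_max_right _ _
      exact (Nat.le_ceil _).trans (by exact_mod_cast h3)
    refine ⟨K, lt_of_lt_of_le hK₀ hK1, fun x y hx hxy => ?_⟩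
    have hx' : (0 : ℝ) < x := by exact_mod_cast hx
    have hlog : 2 * N₀ / ρ ≤ Real.log ((y : ℝ) / x) := by
      have h3 : Real.exp (2 * N₀ / ρ) ≤ (y : ℝ) / x := by
        refine hK3.trans ?_
        rw [le_div_iff₀ hx']
        exact_mod_cast hxy
      have := Real.log_le_log (Real.exp_pos _) h3
      rwa [Real.log_exp] at this
    have key : ∀ N ∈ Finset.Icc x y, (¬ Str (Pair β δ) β δ a₀ b₀ a b η K N) →
        N < N₀ ∨ (¬ Str False (fun i => (h i : ℤ)) δ a₀ b₀ a b (η / 2) K₀ N) ∨ False := by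
      intro N hN hS
      by_cases hsm : N < N₀
      · exact Or.inl hsm
      · right
        left
        intro hS'
        have hNN : N₀ ≤ N := not_lt.1 hsm
        refine hS (str_shift (Pair β δ) hP β δ h B hh a₀ b₀ a b s hs hsB η hη N K₀ K hK1
          (by omega) (by omega) ?_ hS')
        have h3 : C / η ≤ N := by
          have h4 : ⌈C / η⌉₊ ≤ N := by omega
          exact (Nat.le_ceil _).trans (by exact_mod_cast h4)
        rw [div_le_iff₀ hη] at h3
        rw [← hC]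
        linarith
    have k3 := h0 x y hx ((Nat.mul_le_mul_right x hK1).trans hxy)
    have k4 : (N₀ : ℝ) ≤ ρ / 2 * Real.log ((y : ℝ) / x) := by
      rw [div_le_iff₀ hρ] at hlog
      linarith
    have k6 : ∑ N ∈ (Finset.Icc x y).filter (fun _ : ℕ => False), (1 / (N : ℝ)) ≤ 0 := by
      simp
    have k7 := add_le_add (add_le_add ((sum_small N₀ x y hx (D := Classical.decPred _)).trans k4)
      k3) k6
    refine (sum_three (Finset.Icc x y) _ _ _ _ (fun N => 1 / (N : ℝ)) (fun N => by positivity)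
      key).trans (k7.trans ?_)
    linarith

end Pool.Agent.H40.GS
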