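import Pool.Agent.H78.GS.TA3

/-!
Row AEXC of the board gs3_modules: for every point at most one prime number gives an exception.
-/

set_option autoImplicit false

open Finset Pool.Agent.H6.N4D

namespace Pool.Agent.H40.GS

open Pool.Agent.H78.GS (T_EXC)

/-- At most one prime number for every point. -/
theorem cnt_disj (S : Par) (Q : Finset ℕ) (B : ℕ → ℤ → Prop)
    (h : ∀ t ∈ S.I, ∀ p ∈ Q, ∀ q ∈ Q, B p t → B q t → p = q) :
    ∑ p ∈ Q, S.cnt (B p) ≤ (S.I.card : ℝ) := by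
  classical
  unfold Par.cnt
  rw [← Nat.cast_sum, Nat.cast_le, ← card_biUnion]
  · apply card_le_card
    intro t ht
    obtain ⟨p, -, hp⟩ := mem_biUnion.1 ht
    exact (Par.mem_fl.1 hp).1
  · intro p hp q hq hpq
    rw [Function.onFun, Finset.disjoint_left]
    intro t h1 h2
    have h1' := Par.mem_fl.1 h1
    have h2' := Par.mem_fl.1 h2
    exact hpq (h t h1'.1 p hp q hq h1'.2 h2'.2)

/-- The union bound. -/
theorem cnt_ex (S : Par) {α : Type} (A : Finset α) (E : ℤ → α → Prop) :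
    S.cnt (fun t => ∃ k ∈ A, E t k) ≤ ∑ k ∈ A, S.cnt (fun t => E t k) := by
  classical
  unfold Par.cnt
  rw [← Nat.cast_sum, Nat.cast_le]
  refine le_trans (card_le_card ?_) (card_biUnion_le (s := A) (t := fun k => S.fl (fun t => E t k)))
  intro t ht
  obtain ⟨h1, k, hk, h2⟩ := Par.mem_fl.1 ht
  exact mem_biUnion.2 ⟨k, hk, Par.mem_fl.2 ⟨h1, h2⟩⟩

theorem pf_EXC (hTWO : T_TWO) : T_EXC := by
  intro S A δ ζ hOk hζ
  have hP : 0 < S.P := Par.P_pos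
  have hL : 0 ≤ S.L := Real.rpow_nonneg (Real.log_nonneg hOk.hX) _
  have hN : 0 ≤ S.N := by
    have h1 : 0 ≤ S.N * S.h := by
      refine le_trans ?_ hOk.hI1
      have : (0 : ℝ) ≤ S.K := Nat.cast_nonneg _
      positivity
    exact nonneg_of_mul_nonneg_left h1 hOk.hh
  have hQ : ∀ p ∈ S.Q, S.P < p ∧ (p : ℝ) ≤ S.P ^ (2 * S.K) ∧ p.Prime := fun p hp =>
    (mem_Pr (pow_pos hP _).le).1 hp
  -- one pair of indices
  have hone : ∀ k ∈ A, ∑ p ∈ S.Q, 1 / (p : ℝ) * S.cnt (fun t =>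
      nd (p * δ t k.1 k.2) ≤ p * ζ t ∧ ζ t < nd (δ t k.1 k.2)) ≤ 1 / S.P * S.N := by
    intro k _
    have h1 : ∑ p ∈ S.Q, S.cnt (fun t =>
        nd (p * δ t k.1 k.2) ≤ p * ζ t ∧ ζ t < nd (δ t k.1 k.2)) ≤ (S.I.card : ℝ) := by
      refine cnt_disj S S.Q (fun p t =>
        nd (p * δ t k.1 k.2) ≤ p * ζ t ∧ ζ t < nd (δ t k.1 k.2)) ?_
      intro t ht p hp q hq h2 h3
      by_contra hpq
      obtain ⟨-, hp2, hp3⟩ := hQ p hp
      obtain ⟨-, hq2, hq3⟩ := hQ q hq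
      obtain ⟨hz1, hz2⟩ := hζ t ht
      have h4 : 2 * (p : ℝ) * q * ζ t < 1 := by
        refine lt_of_le_of_lt ?_ hz2
        refine mul_le_mul_of_nonneg_right ?_ hz1
        have h5 : (p : ℝ) * q ≤ S.P ^ (2 * S.K) * S.P ^ (2 * S.K) :=
          mul_le_mul hp2 hq2 (Nat.cast_nonneg _) (pow_pos hP _).le
        have h6 : S.P ^ (4 * S.K) = S.P ^ (2 * S.K) * S.P ^ (2 * S.K) := by
          rw [← pow_add]
          congr 1
          ring
        rw [h6, mul_assoc]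
        linarith
      have h7 := (hTWO p q (δ t k.1 k.2) (ζ t) hp3 hq3 hpq h2.1 h3.1 h4).1
      linarith [h2.2]
    rw [Par.card_I hN] at h1
    refine le_trans ?_ (mul_le_mul_of_nonneg_left h1 (by positivity : 0 ≤ 1 / S.P))
    rw [mul_sum]
    refine sum_le_sum fun p hp => mul_le_mul_of_nonneg_right ?_ (Par.cnt_nonneg _)
    exact one_div_le_one_div_of_le hP (hQ p hp).1.le
  calc ∑ p ∈ S.Q, 1 / (p : ℝ) * S.cnt (fun t => ∃ k ∈ A,
        nd (p * δ t k.1 k.2) ≤ p * ζ t ∧ ζ t < nd (δ t k.1 k.2))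
      ≤ ∑ p ∈ S.Q, 1 / (p : ℝ) * ∑ k ∈ A, S.cnt (fun t =>
        nd (p * δ t k.1 k.2) ≤ p * ζ t ∧ ζ t < nd (δ t k.1 k.2)) := by
        refine sum_le_sum fun p _ => mul_le_mul_of_nonneg_left ?_ (by positivity)
        exact cnt_ex S A (fun t k => nd (p * δ t k.1 k.2) ≤ p * ζ t ∧ ζ t < nd (δ t k.1 k.2))
    _ = ∑ k ∈ A, ∑ p ∈ S.Q, 1 / (p : ℝ) * S.cnt (fun t =>
        nd (p * δ t k.1 k.2) ≤ p * ζ t ∧ ζ t < nd (δ t k.1 k.2)) := by
        rw [sum_comm]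
        exact sum_congr rfl fun p _ => by rw [mul_sum]
    _ ≤ ∑ _k ∈ A, 1 / S.P * S.N := sum_le_sum hone
    _ = A.card / S.P * S.N := by
        rw [sum_const, nsmul_eq_mul]
        ring

end Pool.Agent.H40.GS
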